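import Pool.Agent.W_4481e3_q87.GoR
import Pool.Agent.W_4481e3_tab.T5

/-!
Tree s02o5, data 20.
-/

namespace Pool.Agent.W_4481e3_rt.s02o5

open Pool.Agent.W_4481e3_q25.EvR

theorem k423 : ckO Pool.Agent.W_4481e3_tab.T5.tab 55520 88320 134217728 524288 742195 1048576 8 524288 524288 2621440 524288 493837352 508181872 14344520 28689040 268435456 268435456 16777216 16777216 1059062 1059062 0x100000c00000c00003c00003c00027c00003c00027c01027c2121212 = true := by decide +kernel

end Pool.Agent.W_4481e3_rt.s02o5
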